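import Pool.Agent.Helper84.WC.Defs

/-!
# Working definitions for the warped cone modules
-/

open MeasureTheory Topology
open scoped ENNReal ZeroAtInfty InnerProductSpace

namespace Pool.Agent.Helper84.WC

section OldDefs

section Adm

variable {M : Type*} [MetricSpace M] {G : Type*} [Group G] [MulAction G M]

/-- `δ` is a pseudometric on the cone, at most the cone metric and with
`δ((x,t),(sx,t)) ≤ 1` for the generators `s`. -/
structure IsAdm (S : Set G) (δ : Cone M → Cone M → ℝ) : Prop where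
  self : ∀ p, δ p p = 0
  symm : ∀ p q, δ p q = δ q p
  tri : ∀ p q r, δ p r ≤ δ p q + δ q r
  le_cone : ∀ p q, δ p q ≤ coneDist p q
  le_one : ∀ s ∈ S, ∀ (x : M) (t : Set.Ici (1 : ℝ)), δ (x, t) (s • x, t) ≤ 1

/-- The metric of the warped cone: the largest `δ` with `IsAdm S δ`. -/
noncomputable def warpDist (S : Set G) (p q : Cone M) : ℝ :=
  sSup {r : ℝ | ∃ δ : Cone M → Cone M → ℝ, IsAdm S δ ∧ r = δ p q}

end Adm

section OldRoe

variable {X : Type*} [MeasurableSpace X]

/-- `f` is measurable and bounded. -/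
def BddMeas (f : X → ℂ) : Prop := Measurable f ∧ ∃ C : ℝ, ∀ x, ‖f x‖ ≤ C

lemma BddMeas.memLp {ν : Measure X} {f : X → ℂ} (h : BddMeas f) (g : Lp ℂ 2 ν) :
    MemLp (fun x => f x * g x) 2 ν :=
  (Lp.memLp g).of_le_mul (c := h.2.choose)
    (h.1.aestronglyMeasurable.mul (Lp.aestronglyMeasurable g))
    (Filter.Eventually.of_forall (fun x => by
      rw [norm_mul]
      exact mul_le_mul_of_nonneg_right (h.2.choose_spec x) (norm_nonneg _)))

open Classical in
/-- Multiplication by a bounded measurable function `f` as a bounded operator of `L²(ν)`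
(zero if `f` is not bounded and measurable). -/
noncomputable def mulOp (ν : Measure X) (f : X → ℂ) : Lp ℂ 2 ν →L[ℂ] Lp ℂ 2 ν :=
  if h : BddMeas f then
    LinearMap.mkContinuous
      { toFun := fun g => (h.memLp g).toLp _
        map_add' := by
          intro g₁ g₂
          apply Lp.ext
          filter_upwards [(h.memLp (g₁ + g₂)).coeFn_toLp, (h.memLp g₁).coeFn_toLp,
            (h.memLp g₂).coeFn_toLp, Lp.coeFn_add g₁ g₂,
            Lp.coeFn_add ((h.memLp g₁).toLp _) ((h.memLp g₂).toLp _)] with x h1 h2 h3 h4 h5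
          rw [h1, h5]
          simp only [Pi.add_apply, h2, h3, h4, mul_add]
        map_smul' := by
          intro c g
          apply Lp.ext
          filter_upwards [(h.memLp (c • g)).coeFn_toLp, (h.memLp g).coeFn_toLp,
            Lp.coeFn_smul c g, Lp.coeFn_smul c ((h.memLp g).toLp _)] with x h1 h2 h3 h4
          simp only [RingHom.id_apply]
          rw [h1, h4]
          simp only [Pi.smul_apply, h2, h3, smul_eq_mul]
          ring }
      h.2.choose (by
        intro g
        apply Lp.norm_le_mul_norm_of_ae_le_mul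
        filter_upwards [(h.memLp g).coeFn_toLp] with x hx
        simp only [LinearMap.coe_mk, AddHom.coe_mk]
        rw [hx, norm_mul]
        exact mul_le_mul_of_nonneg_right (h.2.choose_spec x) (norm_nonneg _))
  else 0

variable [TopologicalSpace X]

/-- `T` is locally compact: `f T` and `T f` are compact for all `f ∈ C₀(X)`. -/
def LocCpt (ν : Measure X) (T : Lp ℂ 2 ν →L[ℂ] Lp ℂ 2 ν) : Prop :=
  ∀ f : C₀(X, ℂ), IsCompactOperator (mulOp ν f * T) ∧ IsCompactOperator (T * mulOp ν f)

/-- `T` has finite propagation with respect to the distance `d`: there is `R` such that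
`φ T ψ = 0` for all `φ, ψ ∈ C₀(X)` whose supports are at distance `> R`. -/
def FinProp (d : X → X → ℝ) (ν : Measure X) (T : Lp ℂ 2 ν →L[ℂ] Lp ℂ 2 ν) : Prop :=
  ∃ R : ℝ, ∀ φ ψ : C₀(X, ℂ), (∀ x ∈ tsupport φ, ∀ y ∈ tsupport ψ, R < d x y) →
    mulOp ν φ * T * mulOp ν ψ = 0

/-- The Roe algebra: the norm closure of the algebra of locally compact operators of finite
propagation (these operators already form a *-algebra; see the theorem `coe_roe`). -/
noncomputable def roe (d : X → X → ℝ) (ν : Measure X) :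
    NonUnitalStarSubalgebra ℂ (Lp ℂ 2 ν →L[ℂ] Lp ℂ 2 ν) :=
  (NonUnitalStarAlgebra.adjoin ℂ {T | LocCpt ν T ∧ FinProp d ν T}).topologicalClosure

instance (d : X → X → ℝ) (ν : Measure X) :
    IsClosed ((roe d ν : NonUnitalStarSubalgebra ℂ (Lp ℂ 2 ν →L[ℂ] Lp ℂ 2 ν)) :
      Set (Lp ℂ 2 ν →L[ℂ] Lp ℂ 2 ν)) :=
  NonUnitalStarSubalgebra.isClosed_topologicalClosure _


end OldRoe

variable {M : Type*} [MetricSpace M] [MeasurableSpace M] {G : Type*} [Group G] [MulAction G M]

/-- The Roe algebra of the warped cone. -/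
noncomputable abbrev warpedRoe (S : Set G) (m : Measure M) :
    NonUnitalStarSubalgebra ℂ (Lp ℂ 2 (coneMeasure m) →L[ℂ] Lp ℂ 2 (coneMeasure m)) :=
  roe (warpDist S) (coneMeasure m)

end OldDefs

/-- multiplication by the indicator function of `A` -/
noncomputable abbrev ind {X : Type*} [MeasurableSpace X] (ν : Measure X) (A : Set X) :
    Lp ℂ 2 ν →L[ℂ] Lp ℂ 2 ν :=
  mulOp ν (A.indicator 1)

/-- A radial contraction of `M` commuting with `G`. -/
structure Radial (G : Type*) [Group G] (M : Type*) [MetricSpace M] [MulAction G M]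
    (σ : ℝ → M → M) : Prop where
  one : ∀ x, σ 1 x = x
  smul : ∀ (g : G) (c : ℝ) (x : M), σ c (g • x) = g • σ c x
  contr : ∀ c, 0 ≤ c → c ≤ 1 → ∀ x y, dist (σ c x) (σ c y) ≤ c * dist x y
  lip : ∀ c c', 0 ≤ c → c ≤ 1 → 0 ≤ c' → c' ≤ 1 → ∀ x, dist (σ c x) (σ c' x) ≤ |c - c'|

/-- the maps `f_n(x,t) = (σ(t/(t+n)) x, t + n)` -/
noncomputable def push {M : Type*} (σ : ℝ → M → M) (n : ℕ) (p : Cone M) : Cone M :=
  (σ ((p.2 : ℝ) / (p.2 + n)) p.1, ⟨(p.2 : ℝ) + n, by
    have h : (1 : ℝ) ≤ p.2 := p.2.2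
    have h2 : (0 : ℝ) ≤ n := Nat.cast_nonneg n
    exact Set.mem_Ici.2 (by linarith)⟩)

/-- the stripes `frac t ∈ [1 - 2^{-n}, 1 - 2^{-(n+1)})` -/
def stripe (M : Type*) (n : ℕ) : Set (Cone M) :=
  {z | 1 - (1 / 2 : ℝ) ^ n ≤ Int.fract (z.2 : ℝ) ∧ Int.fract (z.2 : ℝ) < 1 - (1 / 2 : ℝ) ^ (n + 1)}

/-- the bounded part `t ≤ b` of the cone -/
def slab (M : Type*) (b : ℝ) : Set (Cone M) := {z | (z.2 : ℝ) ≤ b}

/-- Borel version: locally compact with propagation at most `R`. -/
structure IsRoe {M : Type*} [MetricSpace M] [MeasurableSpace M] {G : Type*} [Group G]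
    [MulAction G M] (S : Set G) (m : Measure M) (R : ℝ)
    (T : Lp ℂ 2 (coneMeasure m) →L[ℂ] Lp ℂ 2 (coneMeasure m)) : Prop where
  cptL : ∀ b : ℝ, IsCompactOperator (ind (coneMeasure m) (slab M b) * T)
  cptR : ∀ b : ℝ, IsCompactOperator (T * ind (coneMeasure m) (slab M b))
  prop : ∀ A B : Set (Cone M), MeasurableSet A → MeasurableSet B →
    (∀ x ∈ A, ∀ y ∈ B, R < warpDist S x y) →
      ind (coneMeasure m) A * T * ind (coneMeasure m) B = 0

/-- the standard symmetric generating set of `F₂` -/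
def gens : Finset (FreeGroup (Fin 2)) :=
  {FreeGroup.of 0, (FreeGroup.of 0)⁻¹, FreeGroup.of 1, (FreeGroup.of 1)⁻¹}

/-- the shift -/
def shift {Y : Type*} (s : FreeGroup (Fin 2)) (x : FreeGroup (Fin 2) → Y) :
    FreeGroup (Fin 2) → Y := fun g => x (s⁻¹ * g)

noncomputable scoped instance : MeasurableSpace Circle := borel Circle

scoped instance : BorelSpace Circle := ⟨rfl⟩

/-- the Haar probability measure of the compact group `Circle^{F₂}` -/
noncomputable def haarT : Measure (FreeGroup (Fin 2) → Circle) :=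
  Measure.haarMeasure ⊤

instance : haarT.IsHaarMeasure := by unfold haarT; infer_instance

instance : IsProbabilityMeasure haarT := by
  constructor
  have h := Measure.haarMeasure_self (G := FreeGroup (Fin 2) → Circle) (K₀ := ⊤)
  simpa [haarT] using h

instance : LocallyCompactSpace (Set.Ici (1 : ℝ)) :=
  isClosed_Ici.isClosedEmbedding_subtypeVal.locallyCompactSpace

instance : IsFiniteMeasureOnCompacts
    ((volume : Measure ℝ).comap (Subtype.val : Set.Ici (1 : ℝ) → ℝ)) :=
  .comap' _ continuous_subtype_val (MeasurableEmbedding.subtype_coe measurableSet_Ici)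

instance : SigmaFinite ((volume : Measure ℝ).comap (Subtype.val : Set.Ici (1 : ℝ) → ℝ)) :=
  inferInstance

section

variable {M : Type*} [MetricSpace M] [CompactSpace M] [MeasurableSpace M] [BorelSpace M]
  (m : Measure M) [IsProbabilityMeasure m]

instance : SigmaFinite (coneMeasure m) := by
  unfold coneMeasure
  infer_instance

instance : TopologicalSpace.SeparableSpace (Lp ℂ 2 (coneMeasure m)) := by
  have : Fact ((1 : ℝ≥0∞) ≤ 2) := ⟨one_le_two⟩
  have : Fact ((2 : ℝ≥0∞) ≠ ∞) := ⟨ENNReal.ofNat_ne_top⟩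
  have : SecondCountableTopology (Lp ℂ 2 (coneMeasure m)) := inferInstance
  infer_instance

end

end Pool.Agent.Helper84.WC
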