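import Pool.Agent.Helper84.WC.Main

/-!
# From the working definitions to the public ones
-/

open MeasureTheory Topology
open scoped ENNReal ZeroAtInfty InnerProductSpace

namespace Pool.Agent.Helper84.WC

section Metric

variable {M : Type*} [MetricSpace M] {G : Type*} [Group G] [MulAction G M]

lemma coneDist_nonneg (p q : Cone M) : 0 ≤ coneDist p q := by
  unfold coneDist
  have h1 : (1 : ℝ) ≤ p.2 := p.2.2
  have h2 : (1 : ℝ) ≤ q.2 := q.2.2
  have h3 : 0 ≤ min (p.2 : ℝ) (q.2 : ℝ) := le_min (by linarith) (by linarith)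
  have := mul_nonneg h3 (dist_nonneg (x := p.1) (y := q.1))
  have := abs_nonneg ((p.2 : ℝ) - (q.2 : ℝ))
  linarith

lemma IsConeMetric.exists_one {ρ : Cone M → Cone M → ℝ} (h : IsConeMetric ρ) :
    ∃ L : ℝ, 1 ≤ L ∧ (∀ p q, 0 ≤ ρ p q) ∧
      ∀ p q, ρ p q ≤ L * coneDist p q ∧ coneDist p q ≤ L * ρ p q := by
  obtain ⟨L, hL, h⟩ := h
  have h0 : ∀ p q, 0 ≤ ρ p q := by
    intro p q
    have h1 := (coneDist_nonneg p q).trans (h p q).2
    exact nonneg_of_mul_nonneg_right h1 hL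
  refine ⟨max L 1, le_max_right _ _, h0, fun p q => ⟨?_, ?_⟩⟩
  · exact (h p q).1.trans (mul_le_mul_of_nonneg_right (le_max_left _ _) (coneDist_nonneg p q))
  · exact (h p q).2.trans (mul_le_mul_of_nonneg_right (le_max_left _ _) (h0 p q))

variable {ρ : Cone M → Cone M → ℝ} {S : Set G}

omit [MetricSpace M] in
lemma warpMetric_bdd (p q : Cone M) :
    BddAbove {r : ℝ | ∃ δ : Cone M → Cone M → ℝ, IsWarp ρ S δ ∧ r = δ p q} := by
  refine ⟨ρ p q, ?_⟩
  rintro r ⟨δ, hδ, rfl⟩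
  exact hδ.le_cone p q

omit [MetricSpace M] in
lemma le_warpMetric {δ : Cone M → Cone M → ℝ} (h : IsWarp ρ S δ) (p q : Cone M) :
    δ p q ≤ warpMetric ρ S p q :=
  le_csSup (warpMetric_bdd p q) ⟨δ, h, rfl⟩

omit [MetricSpace M] in
lemma warpMetric_le (h0 : ∀ p q, 0 ≤ ρ p q) {p q : Cone M} {a : ℝ}
    (h : ∀ δ : Cone M → Cone M → ℝ, IsWarp ρ S δ → δ p q ≤ a) : warpMetric ρ S p q ≤ a := by
  refine csSup_le ⟨0, fun _ _ => 0, ⟨fun _ => rfl, fun _ _ => rfl, fun _ _ _ => by simp,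
    fun p q => h0 p q, fun _ _ _ _ => zero_le_one⟩, rfl⟩ ?_
  rintro r ⟨δ, hδ, rfl⟩
  exact h δ hδ

omit [MetricSpace M] in
lemma warpMetric_isWarp (h0 : ∀ p q, 0 ≤ ρ p q) : IsWarp ρ S (warpMetric ρ S) where
  self p := by
    apply le_antisymm
    · exact warpMetric_le h0 (fun δ hδ => (hδ.self p).le)
    · have h := le_warpMetric (ρ := ρ) (S := S) (δ := fun _ _ => 0)
        ⟨fun _ => rfl, fun _ _ => rfl, fun _ _ _ => by simp, fun p q => h0 p q,
          fun _ _ _ _ => zero_le_one⟩ p p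
      exact h
  symm p q := by
    apply le_antisymm
    · exact warpMetric_le h0 (fun δ hδ => by rw [hδ.symm p q]; exact le_warpMetric hδ q p)
    · exact warpMetric_le h0 (fun δ hδ => by rw [hδ.symm q p]; exact le_warpMetric hδ p q)
  tri p q r := warpMetric_le h0 (fun δ hδ =>
    (hδ.tri p q r).trans (add_le_add (le_warpMetric hδ p q) (le_warpMetric hδ q r)))
  le_cone p q := warpMetric_le h0 (fun δ hδ => hδ.le_cone p q)
  le_one s hs x t := warpMetric_le h0 (fun δ hδ => hδ.le_one s hs x t)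

lemma warpMetric_le_warpDist {L : ℝ} (hL : 1 ≤ L) (h0 : ∀ p q, 0 ≤ ρ p q)
    (h : ∀ p q, ρ p q ≤ L * coneDist p q) (p q : Cone M) :
    warpMetric ρ S p q ≤ L * warpDist S p q := by
  have hL0 : 0 < L := lt_of_lt_of_le zero_lt_one hL
  refine warpMetric_le h0 (fun δ hδ => ?_)
  have h1 : IsAdm S (fun p q => δ p q / L) := by
    refine ⟨fun p => by simp [hδ.self p], fun p q => by rw [hδ.symm p q],
      fun p q r => ?_, fun p q => ?_, fun s hs x t => ?_⟩
    · rw [← add_div]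
      exact div_le_div_of_nonneg_right (hδ.tri p q r) hL0.le
    · rw [div_le_iff₀ hL0, mul_comm]
      exact (hδ.le_cone p q).trans (h p q)
    · rw [div_le_iff₀ hL0, one_mul]
      exact (hδ.le_one s hs x t).trans hL
  have h2 := le_warpDist h1 p q
  rw [div_le_iff₀ hL0, mul_comm] at h2
  exact h2

lemma warpDist_le_warpMetric {L : ℝ} (hL : 1 ≤ L)
    (h : ∀ p q, coneDist p q ≤ L * ρ p q) (p q : Cone M) :
    warpDist S p q ≤ L * warpMetric ρ S p q := by
  have hL0 : 0 < L := lt_of_lt_of_le zero_lt_one hL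
  have hA := warpDist_isAdm (M := M) S
  have h1 : IsWarp ρ S (fun p q => warpDist S p q / L) := by
    refine ⟨fun p => by simp [hA.self p], fun p q => by rw [hA.symm p q],
      fun p q r => ?_, fun p q => ?_, fun s hs x t => ?_⟩
    · rw [← add_div]
      exact div_le_div_of_nonneg_right (hA.tri p q r) hL0.le
    · rw [div_le_iff₀ hL0, mul_comm]
      exact (hA.le_cone p q).trans (h p q)
    · rw [div_le_iff₀ hL0, one_mul]
      exact (hA.le_one s hs x t).trans hL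
  have h2 := le_warpMetric h1 p q
  rw [div_le_iff₀ hL0, mul_comm] at h2
  exact h2

end Metric

section Ops

variable {X : Type*} [MeasurableSpace X] {ν : Measure X}

/-- the underlying operator -/
def Op.toCLM (T : Op ν) : Lp ℂ 2 ν →L[ℂ] Lp ℂ 2 ν := T

lemma Op.toCLM_mul (T T' : Op ν) : (T * T').toCLM = T.toCLM * T'.toCLM := rfl

lemma isMul_iff {f : X → ℂ} (hf : BddMeas f) (F : Op ν) :
    IsMul ν f F ↔ F.toCLM = mulOp ν f := by
  constructor
  · intro h
    ext1 g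
    apply Lp.ext
    filter_upwards [mulOp_coe hf g, h g] with x h1 h2
    rw [h1]
    exact h2
  · intro h g
    have h1 := mulOp_coe (ν := ν) hf g
    rw [← h] at h1
    exact h1

lemma isCpt_iff (T : Op ν) : T.IsCpt ↔ IsCompactOperator T.toCLM := Iff.rfl

end Ops

section Cpt

variable {M : Type*} [MetricSpace M] [CompactSpace M] [MeasurableSpace M] [BorelSpace M]
variable {ν : Measure (Cone M)}

omit [CompactSpace M] in
lemma isLocCpt_iff (T : Op ν) : IsLocCpt ν T ↔ LocCpt ν T.toCLM := by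
  constructor
  · intro h f
    obtain ⟨F, hF, h1, h2⟩ := h f
    rw [isMul_iff (bddMeas_c0 f)] at hF
    rw [← hF]
    exact ⟨h1, h2⟩
  · intro h f
    refine ⟨(mulOp ν f : Lp ℂ 2 ν →L[ℂ] Lp ℂ 2 ν), (isMul_iff (bddMeas_c0 f) _).2 rfl,
      (h f).1, (h f).2⟩

omit [CompactSpace M] in
lemma hasFinProp_iff (d : Cone M → Cone M → ℝ) (T : Op ν) :
    HasFinProp d ν T ↔ FinProp d ν T.toCLM := by
  constructor
  · rintro ⟨R, hR⟩
    refine ⟨R, fun φ ψ h => ?_⟩
    obtain ⟨F₁, F₂, h1, h2, h3⟩ := hR φ ψ h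
    rw [isMul_iff (bddMeas_c0 φ)] at h1
    rw [isMul_iff (bddMeas_c0 ψ)] at h2
    rw [← h1, ← h2]
    exact h3
  · rintro ⟨R, hR⟩
    refine ⟨R, fun φ ψ h => ⟨(mulOp ν φ : Lp ℂ 2 ν →L[ℂ] Lp ℂ 2 ν),
      (mulOp ν ψ : Lp ℂ 2 ν →L[ℂ] Lp ℂ 2 ν), (isMul_iff (bddMeas_c0 φ) _).2 rfl,
      (isMul_iff (bddMeas_c0 ψ) _).2 rfl, hR φ ψ h⟩⟩

omit [CompactSpace M] [BorelSpace M] in
lemma finProp_congr {d d' : Cone M → Cone M → ℝ} {L : ℝ} (hL : 1 ≤ L)
    (h : ∀ p q, d' p q ≤ L * d p q) {T : Lp ℂ 2 ν →L[ℂ] Lp ℂ 2 ν}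
    (hT : FinProp d ν T) : FinProp d' ν T := by
  have hL0 : 0 < L := lt_of_lt_of_le zero_lt_one hL
  obtain ⟨R, hR⟩ := hT
  refine ⟨L * R, fun φ ψ hφ => hR φ ψ (fun x hx y hy => ?_)⟩
  have h1 := hφ x hx y hy
  have h2 := h x y
  exact lt_of_mul_lt_mul_left (h1.trans_le h2) hL0.le

variable {G : Type*} [Group G] [MulAction G M]

theorem mem_warpedRoeSet {ρ : Cone M → Cone M → ℝ} (hρ : IsConeMetric ρ) (S : Set G)
    (m : Measure M) [IsProbabilityMeasure m] (T : Op (coneMeasure m)) :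
    T ∈ warpedRoeSet ρ S m ↔ ∃ R : ℝ, IsRoe S m R T.toCLM := by
  obtain ⟨L, hL, h0, h⟩ := hρ.exists_one
  have h1 : T ∈ warpedRoeSet ρ S m ↔
      (IsLocCpt (coneMeasure m) T ∧ HasFinProp (warpMetric ρ S) (coneMeasure m) T) := Iff.rfl
  rw [h1, isLocCpt_iff, hasFinProp_iff, ← isRoe_iff]
  constructor
  · rintro ⟨h2, h3⟩
    exact ⟨h2, finProp_congr hL (warpDist_le_warpMetric hL (fun p q => (h p q).2)) h3⟩
  · rintro ⟨h2, h3⟩
    exact ⟨h2, finProp_congr hL (warpMetric_le_warpDist hL h0 (fun p q => (h p q).1)) h3⟩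

theorem roeIsClosure {ρ : Cone M → Cone M → ℝ} (hρ : IsConeMetric ρ) (S : Set G)
    (m : Measure M) [IsProbabilityMeasure m] : RoeIsClosure ρ S m := by
  have hiff := mem_warpedRoeSet hρ S m
  let P : NonUnitalStarSubalgebra ℂ (Op (coneMeasure m)) :=
    { carrier := warpedRoeSet ρ S m
      add_mem' := by
        intro T T' hT hT'
        obtain ⟨R, h⟩ := (hiff T).1 hT
        obtain ⟨R', h'⟩ := (hiff T').1 hT'
        exact (hiff _).2 (h.add h')
      zero_mem' := (hiff _).2 ⟨0, wc9_zero S m⟩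
      mul_mem' := by
        intro T T' hT hT'
        obtain ⟨R, h⟩ := (hiff T).1 hT
        obtain ⟨R', h'⟩ := (hiff T').1 hT'
        exact (hiff _).2 (h.mul h')
      smul_mem' := by
        intro c T hT
        obtain ⟨R, h⟩ := (hiff T).1 hT
        exact (hiff _).2 ⟨R, wc9_smul c h⟩
      star_mem' := by
        intro T hT
        obtain ⟨R, h⟩ := (hiff T).1 hT
        exact (hiff _).2 h.star }
  have h1 : NonUnitalStarAlgebra.adjoin ℂ (warpedRoeSet ρ S m) = P :=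
    NonUnitalStarAlgebra.adjoin_eq P
  have h2 : (genAlg (warpedRoeSet ρ S m) : Set (Op (coneMeasure m))) =
      closure ((NonUnitalStarAlgebra.adjoin ℂ (warpedRoeSet ρ S m) :
        NonUnitalStarSubalgebra ℂ (Op (coneMeasure m))) : Set (Op (coneMeasure m))) := rfl
  rw [RoeIsClosure, h2, h1]
  rfl

theorem mem_genAlg_of_map {ρ : Cone M → Cone M → ℝ} (hρ : IsConeMetric ρ) (S : Set G)
    (m : Measure M) [IsProbabilityMeasure m]
    (L : (Lp ℂ 2 (coneMeasure m) →L[ℂ] Lp ℂ 2 (coneMeasure m)) →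
      (Lp ℂ 2 (coneMeasure m) →L[ℂ] Lp ℂ 2 (coneMeasure m))) (hL : Continuous L)
    (h : ∀ R T, IsRoe S m R T → ∃ R', IsRoe S m R' (L T)) (T : Op (coneMeasure m))
    (hT : T ∈ genAlg (warpedRoeSet ρ S m)) :
    (L T.toCLM : Op (coneMeasure m)) ∈ genAlg (warpedRoeSet ρ S m) := by
  have h1 := roeIsClosure hρ S m
  have h2 : T ∈ closure (warpedRoeSet ρ S m) := by
    rw [← h1]; exact hT
  have hL' : Continuous (fun T : Op (coneMeasure m) => (L T.toCLM : Op (coneMeasure m))) := hL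
  have h3 : (L T.toCLM : Op (coneMeasure m)) ∈ closure (warpedRoeSet ρ S m) := by
    refine map_mem_closure hL' h2 (fun T' hT' => ?_)
    obtain ⟨R, hR⟩ := (mem_warpedRoeSet hρ S m T').1 hT'
    exact (mem_warpedRoeSet hρ S m _).2 (h R (Op.toCLM (ν := coneMeasure m) T') hR)
  have h4 : (L T.toCLM : Op (coneMeasure m)) ∈
      (genAlg (warpedRoeSet ρ S m) : Set (Op (coneMeasure m))) := by
    rw [h1]; exact h3
  exact h4

end Cpt

theorem K_vanish_Op {X : Type*} [MeasurableSpace X] (ν : Measure X) (s : Set (Op ν))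
    (Φ : (Lp ℂ 2 ν →L[ℂ] Lp ℂ 2 ν) →⋆ₙₐ[ℂ] (Lp ℂ 2 ν →L[ℂ] Lp ℂ 2 ν))
    (v w : Lp ℂ 2 ν →L[ℂ] Lp ℂ 2 ν)
    (hv : star v * v = 1) (hw : star w * w = 1) (hvw : star v * w = 0)
    (hΦ : ∀ T, Φ T = v * T * star v + w * Φ T * star w)
    (hΦA : ∀ T ∈ genAlg s, (Φ T.toCLM : Op ν) ∈ genAlg s)
    (hvA : ∀ T ∈ genAlg s, (v * T.toCLM : Op ν) ∈ genAlg s)
    (hwA : ∀ T ∈ genAlg s, (w * T.toCLM : Op ν) ∈ genAlg s) :
    KZero (genAlg s) = ⊥ ∧ KOne (genAlg s) = ⊥ := by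
  have hcl : IsClosed ((genAlg s : NonUnitalStarSubalgebra ℂ (Lp ℂ 2 ν →L[ℂ] Lp ℂ 2 ν)) :
      Set (Lp ℂ 2 ν →L[ℂ] Lp ℂ 2 ν)) :=
    NonUnitalStarSubalgebra.isClosed_topologicalClosure _
  exact K_vanish_isom (H := Lp ℂ 2 ν) (genAlg s) Φ v w hv hw hvw hΦ hΦA hvA hwA

variable {M : Type*} [MetricSpace M] [CompactSpace M] [MeasurableSpace M] [BorelSpace M]
variable {G : Type*} [Group G] [MulAction G M]

/-- The general vanishing theorem, public form. -/
theorem K_warped_public {ρ : Cone M → Cone M → ℝ} (hρ : IsConeMetric ρ) (S : Set G)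
    (m : Measure M) [IsProbabilityMeasure m] [m.IsOpenPosMeasure] {σ : ℝ → M → M}
    (hσ : Radial G M σ) :
    Subsingleton (CK0 (WarpedRoe ρ S m)) ∧ Subsingleton (CK1 (WarpedRoe ρ S m)) := by
  have hcell0 := exists_cells m
  obtain ⟨c, hc, hdiam, hcells⟩ := hcell0
  have hV0 : ∀ n : ℕ, ∃ V : Lp ℂ 2 (coneMeasure m) →ₗᵢ[ℂ] Lp ℂ 2 (coneMeasure m),
      (∀ g, ind (coneMeasure m) (stripe M n) (V g) = V g) ∧
      (∀ (D : Set ℕ) (g), ind (coneMeasure m) (c ⁻¹' D) (V g) =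
        V (ind (coneMeasure m) ((c ∘ push σ n) ⁻¹' D) g)) := fun n =>
    exists_cover_isometry (coneMeasure m) c hc (push σ n) (push_continuous hσ n).measurable
      (stripe M n) (measurableSet_stripe n) (hcells n)
  choose V hV1 hV2 using hV0
  have hsw0 := exists_swindle V (orth_of_stripe m V hV1)
  obtain ⟨Φ, w, hw1, hvw, hΦ1, hΦ2, hw2⟩ := hsw0
  have key := fun R T (hT : IsRoe S m R T) =>
    swindle_mem S m hσ c hc hdiam V hV2 Φ w hΦ2 hw2 R T hT
  have h01 : KZero (genAlg (warpedRoeSet ρ S m)) = ⊥ ∧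
      KOne (genAlg (warpedRoeSet ρ S m)) = ⊥ :=
    K_vanish_Op (coneMeasure m) (warpedRoeSet ρ S m) Φ (V 0).toContinuousLinearMap w
      (isometry_star_mul (V 0)) hw1 hvw hΦ1
      (mem_genAlg_of_map hρ S m Φ (continuous_starHom Φ) (fun R T hT => (key R T hT).1))
      (mem_genAlg_of_map hρ S m (fun T => (V 0).toContinuousLinearMap * T)
        (continuous_const.mul continuous_id) (fun R T hT => (key R T hT).2.1))
      (mem_genAlg_of_map hρ S m (fun T => w * T)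
        (continuous_const.mul continuous_id) (fun R T hT => (key R T hT).2.2))
  exact ⟨sub_bot h01.1, sub_bot h01.2⟩

end Pool.Agent.Helper84.WC
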