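import Mathlib

/-!
# Warped cones, Roe algebras and operator K-theory: definitions

Definitions used for MP_d7e228_al.

* `KGrp`, `K0`, `K1`: the K-groups of a unital C*-algebra by generators (projections, unitaries of
  matrix algebras) and relations; `KZero`, `KOne`: the K-groups of a possibly non-unital
  C*-algebra `A`, i.e. the kernel of the map from the K-group of the unitization of `A` to that
  of `ℂ`.
* `coneDist`, `IsConeMetric`, `IsWarp`, `warpMetric`: the cone over `M` and the warped cone metric.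
* `L2`, `IsMul`, `IsLocCpt`, `HasFinProp`, `roe`: the Roe algebra on `L²`.
* `GapAction`: the hypotheses on the action in the question.
-/

open MeasureTheory Topology
open scoped ENNReal ZeroAtInfty

namespace Pool.Agent.Helper84.WC

/-! ### Operator K-theory -/

section KTheory

variable {R : Type*} [Ring R] [StarRing R] [TopologicalSpace R]
variable {R' : Type*} [Ring R'] [StarRing R'] [TopologicalSpace R']

/-- Block diagonal sum of two square matrices. -/
def bsum {R : Type*} [Zero R] {m n : ℕ} (a : Matrix (Fin m) (Fin m) R)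
    (b : Matrix (Fin n) (Fin n) R) : Matrix (Fin (m + n)) (Fin (m + n)) R :=
  (Matrix.fromBlocks a 0 0 b).submatrix finSumFinEquiv.symm finSumFinEquiv.symm

/-- The relations: `[p] = [q]` if `p, q ∈ P n` are joined by a path inside `P n`;
`[p ⊕ q] = [p] + [q]`; `[e n] = 0`. -/
def KRel (P : ∀ n : ℕ, Set (Matrix (Fin n) (Fin n) R))
    (e : ∀ n : ℕ, Matrix (Fin n) (Fin n) R) : Set (FreeAbelianGroup (Σ n : ℕ, P n)) :=
  {x | ∃ (n : ℕ) (p q : P n), JoinedIn (P n) p.1 q.1 ∧
      x = FreeAbelianGroup.of ⟨n, p⟩ - FreeAbelianGroup.of ⟨n, q⟩} ∪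
  {x | ∃ (m n : ℕ) (p : P m) (q : P n) (r : P (m + n)), r.1 = bsum p.1 q.1 ∧
      x = FreeAbelianGroup.of ⟨m + n, r⟩
        - (FreeAbelianGroup.of ⟨m, p⟩ + FreeAbelianGroup.of ⟨n, q⟩)} ∪
  {x | ∃ (n : ℕ) (z : P n), z.1 = e n ∧ x = FreeAbelianGroup.of ⟨n, z⟩}

/-- The abelian group with one generator for each element of each `P n`, modulo `KRel`. -/
def KGrp (P : ∀ n : ℕ, Set (Matrix (Fin n) (Fin n) R))
    (e : ∀ n : ℕ, Matrix (Fin n) (Fin n) R) : Type _ :=
  FreeAbelianGroup (Σ n : ℕ, P n) ⧸ AddSubgroup.closure (KRel P e)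

instance (P : ∀ n : ℕ, Set (Matrix (Fin n) (Fin n) R))
    (e : ∀ n : ℕ, Matrix (Fin n) (Fin n) R) : AddCommGroup (KGrp P e) :=
  QuotientAddGroup.Quotient.addCommGroup (AddSubgroup.closure (KRel P e))

/-- The class of a generator. -/
def KGrp.mk {P : ∀ n : ℕ, Set (Matrix (Fin n) (Fin n) R)}
    {e : ∀ n : ℕ, Matrix (Fin n) (Fin n) R} {n : ℕ} (p : P n) : KGrp P e :=
  QuotientAddGroup.mk (FreeAbelianGroup.of ⟨n, p⟩)

/-- Functoriality. -/
def KGrp.map {P : ∀ n : ℕ, Set (Matrix (Fin n) (Fin n) R)}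
    {e : ∀ n : ℕ, Matrix (Fin n) (Fin n) R}
    {P' : ∀ n : ℕ, Set (Matrix (Fin n) (Fin n) R')}
    {e' : ∀ n : ℕ, Matrix (Fin n) (Fin n) R'}
    (f : R →+* R') (hf : Continuous f) (hP : ∀ n, ∀ a ∈ P n, a.map f ∈ P' n)
    (he : ∀ n, (e n).map f = e' n) : KGrp P e →+ KGrp P' e' :=
  QuotientAddGroup.map _ _
    (FreeAbelianGroup.map (fun a : (Σ n : ℕ, P n) =>
      (⟨a.1, ⟨a.2.1.map f, hP _ _ a.2.2⟩⟩ : Σ n : ℕ, P' n))) (by
    rw [AddSubgroup.closure_le]
    rintro x ((⟨n, p, q, hpq, rfl⟩ | ⟨m, n, p, q, r, hr, rfl⟩) | ⟨n, z, hz, rfl⟩)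
    · apply AddSubgroup.subset_closure
      refine Or.inl (Or.inl ⟨n, ⟨p.1.map f, hP _ _ p.2⟩, ⟨q.1.map f, hP _ _ q.2⟩, ?_, ?_⟩)
      · obtain ⟨γ, hγ⟩ := hpq
        refine ⟨γ.map (f := fun a : Matrix (Fin n) (Fin n) R => a.map f) ?_, ?_⟩
        · exact Continuous.matrix_map continuous_id hf
        · intro t
          exact hP _ _ (hγ t)
      · simp [FreeAbelianGroup.map_of_apply]
    · apply AddSubgroup.subset_closure
      refine Or.inl (Or.inr ⟨m, n, ⟨p.1.map f, hP _ _ p.2⟩, ⟨q.1.map f, hP _ _ q.2⟩,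
        ⟨r.1.map f, hP _ _ r.2⟩, ?_, ?_⟩)
      · simp only [hr, bsum]
        ext i j
        simp only [Matrix.map_apply, Matrix.submatrix_apply]
        rcases finSumFinEquiv.symm i with i' | i' <;> rcases finSumFinEquiv.symm j with j' | j' <;>
          simp
      · simp [FreeAbelianGroup.map_of_apply]
    · apply AddSubgroup.subset_closure
      refine Or.inr ⟨n, ⟨z.1.map f, hP _ _ z.2⟩, ?_, ?_⟩
      · simp only [hz, he]
      · simp [FreeAbelianGroup.map_of_apply])

variable (R) in
/-- The projections of `M_n(R)`. -/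
def proj (n : ℕ) : Set (Matrix (Fin n) (Fin n) R) := {p | p * p = p ∧ star p = p}

variable (R) in
/-- The unitaries of `M_n(R)`. -/
def unit (n : ℕ) : Set (Matrix (Fin n) (Fin n) R) := {u | star u * u = 1 ∧ u * star u = 1}

variable (R) in
/-- `K₀` of a unital C*-algebra: generated by the projections of the matrix algebras, with
`[p] = [q]` for homotopic projections, `[p ⊕ q] = [p] + [q]`, `[0] = 0`. -/
abbrev K0 : Type _ := KGrp (proj R) (fun _ => 0)

variable (R) in
/-- `K₁` of a unital C*-algebra: generated by the unitaries of the matrix algebras, with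
`[u] = [v]` for homotopic unitaries, `[u ⊕ v] = [u] + [v]`, `[1] = 0`. -/
abbrev K1 : Type _ := KGrp (unit R) (fun _ => 1)

omit [TopologicalSpace R] [TopologicalSpace R'] in
lemma map_star' {n : ℕ} (f : R →+* R') (hs : ∀ x, f (star x) = star (f x))
    (a : Matrix (Fin n) (Fin n) R) : (star a).map f = star (a.map f) := by
  ext i j
  simp [Matrix.star_apply, hs]

omit [TopologicalSpace R] [TopologicalSpace R'] in
lemma proj_map (f : R →+* R') (hs : ∀ x, f (star x) = star (f x)) (n : ℕ)
    (a : Matrix (Fin n) (Fin n) R) (ha : a ∈ proj R n) : a.map f ∈ proj R' n := by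
  refine ⟨?_, ?_⟩
  · rw [← Matrix.map_mul, ha.1]
  · rw [← map_star' f hs, ha.2]

omit [TopologicalSpace R] [TopologicalSpace R'] in
lemma unit_map (f : R →+* R') (hs : ∀ x, f (star x) = star (f x)) (n : ℕ)
    (a : Matrix (Fin n) (Fin n) R) (ha : a ∈ unit R n) : a.map f ∈ unit R' n := by
  refine ⟨?_, ?_⟩
  · rw [← map_star' f hs, ← Matrix.map_mul, ha.1, Matrix.map_one f (map_zero f) (map_one f)]
  · rw [← map_star' f hs, ← Matrix.map_mul, ha.2, Matrix.map_one f (map_zero f) (map_one f)]

/-- Functoriality of `K₀`. -/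
def K0.map (f : R →+* R') (hf : Continuous f) (hs : ∀ x, f (star x) = star (f x)) :
    K0 R →+ K0 R' :=
  KGrp.map f hf (proj_map f hs) (fun _ => Matrix.map_zero f (map_zero f))

/-- Functoriality of `K₁`. -/
def K1.map (f : R →+* R') (hf : Continuous f) (hs : ∀ x, f (star x) = star (f x)) :
    K1 R →+ K1 R' :=
  KGrp.map f hf (unit_map f hs) (fun _ => Matrix.map_one f (map_zero f) (map_one f))

section NonUnital

variable (A : Type*) [NonUnitalCStarAlgebra A]

/-- The character `ℂ ⊕ A → ℂ` of the unitization. -/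
def aug : Unitization ℂ A →+* ℂ := (Unitization.fstHom ℂ A : Unitization ℂ A →+* ℂ)

lemma aug_continuous : Continuous (aug A) := Unitization.continuous_fst

lemma aug_star (x : Unitization ℂ A) : aug A (star x) = star (aug A x) :=
  Unitization.fst_star x

/-- `K₀` of a C*-algebra `A` (unital or not): the kernel of `K₀(A⁺) → K₀(ℂ)`. -/
noncomputable def KZero : AddSubgroup (K0 (Unitization ℂ A)) :=
  (K0.map (aug A) (aug_continuous A) (aug_star A)).ker

/-- `K₁` of a C*-algebra `A` (unital or not): the kernel of `K₁(A⁺) → K₁(ℂ)`. -/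
noncomputable def KOne : AddSubgroup (K1 (Unitization ℂ A)) :=
  (K1.map (aug A) (aug_continuous A) (aug_star A)).ker

/-- The group `K₀(A)`. -/
def CK0 : Type _ := KZero A

noncomputable instance : AddCommGroup (CK0 A) := AddSubgroup.toAddCommGroup (KZero A)

/-- The group `K₁(A)`. -/
def CK1 : Type _ := KOne A

noncomputable instance : AddCommGroup (CK1 A) := AddSubgroup.toAddCommGroup (KOne A)

end NonUnital

end KTheory

/-! ### The cone and the warped cone -/

section Cone

variable {M : Type*} [MetricSpace M]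

/-- The (truncated) cone over `M`, with its end: `M × [1, ∞)`. -/
abbrev Cone (M : Type*) : Type _ := M × Set.Ici (1 : ℝ)

/-- The cone metric `|t - s| + min(t, s) · dist(x, y)` (a metric if `diam M ≤ 2`). -/
noncomputable def coneDist (p q : Cone M) : ℝ :=
  |(p.2 : ℝ) - (q.2 : ℝ)| + min (p.2 : ℝ) (q.2 : ℝ) * dist p.1 q.1

/-- `ρ` is bi-Lipschitz equivalent to `coneDist`. -/
def IsConeMetric (ρ : Cone M → Cone M → ℝ) : Prop :=
  ∃ L : ℝ, 0 < L ∧ ∀ p q, ρ p q ≤ L * coneDist p q ∧ coneDist p q ≤ L * ρ p q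

variable {G : Type*} [Group G] [MulAction G M]

/-- `δ` is a pseudometric on the cone, at most the cone metric `ρ` and with
`δ((x,t),(sx,t)) ≤ 1` for the generators `s`. -/
structure IsWarp (ρ : Cone M → Cone M → ℝ) (S : Set G) (δ : Cone M → Cone M → ℝ) : Prop where
  self : ∀ p, δ p p = 0
  symm : ∀ p q, δ p q = δ q p
  tri : ∀ p q r, δ p r ≤ δ p q + δ q r
  le_cone : ∀ p q, δ p q ≤ ρ p q
  le_one : ∀ s ∈ S, ∀ (x : M) (t : Set.Ici (1 : ℝ)), δ (x, t) (s • x, t) ≤ 1

/-- The metric of the warped cone: the largest `δ` with `IsWarp ρ S δ`. -/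
noncomputable def warpMetric (ρ : Cone M → Cone M → ℝ) (S : Set G) (p q : Cone M) : ℝ :=
  sSup {r : ℝ | ∃ δ : Cone M → Cone M → ℝ, IsWarp ρ S δ ∧ r = δ p q}

end Cone

/-! ### The Roe algebra -/

section Gen

variable {A : Type*} [CStarAlgebra A]

/-- The C*-subalgebra of `A` generated by the set `s`: the norm closure of the *-algebra
generated by `s`. -/
noncomputable def genAlg (s : Set A) : NonUnitalStarSubalgebra ℂ A :=
  (NonUnitalStarAlgebra.adjoin ℂ s).topologicalClosure

/-- `genAlg s` is a C*-algebra. -/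
noncomputable instance instGenAlg (s : Set A) : NonUnitalCStarAlgebra (genAlg s) :=
  NonUnitalStarSubalgebra.nonUnitalCStarAlgebra (genAlg s)
    (h_closed := NonUnitalStarSubalgebra.isClosed_topologicalClosure _)

end Gen

section Roe

variable {X : Type*} [MeasurableSpace X]

/-- The complex Hilbert space `L²(X, ν)`. -/
def L2 (ν : Measure X) : Type _ := Lp ℂ 2 ν

noncomputable instance (ν : Measure X) : NormedAddCommGroup (L2 ν) :=
  Lp.instNormedAddCommGroup

noncomputable instance (ν : Measure X) : InnerProductSpace ℂ (L2 ν) :=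
  L2.innerProductSpace

instance (ν : Measure X) : CompleteSpace (L2 ν) :=
  Lp.instCompleteSpace

/-- A function representing `g ∈ L²(X, ν)`. -/
noncomputable def L2.fn {ν : Measure X} (g : L2 ν) : X → ℂ := AEEqFun.cast (Subtype.val g)

/-- The bounded operators of `L²(X, ν)`. -/
def Op (ν : Measure X) : Type _ := L2 ν →L[ℂ] L2 ν

noncomputable instance (ν : Measure X) : CStarAlgebra (Op ν) :=
  (inferInstance : CStarAlgebra (L2 ν →L[ℂ] L2 ν))

/-- The value `T g` of the operator `T` at the vector `g`. -/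
noncomputable def Op.app {ν : Measure X} (T : Op ν) (g : L2 ν) : L2 ν :=
  ContinuousLinearMap.toLinearMap T g

/-- `T` is a compact operator. -/
def Op.IsCpt {ν : Measure X} (T : Op ν) : Prop := IsCompactOperator (Op.app T)

/-- `F` is the operator of multiplication by `f` on `L²(X, ν)`. -/
def IsMul (ν : Measure X) (f : X → ℂ) (F : Op ν) : Prop :=
  ∀ g : L2 ν, (F.app g).fn =ᵐ[ν] fun x => f x * g.fn x

variable [TopologicalSpace X]

/-- `T` is locally compact: `f T` and `T f` are compact for all `f ∈ C₀(X)`. -/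
def IsLocCpt (ν : Measure X) (T : Op ν) : Prop :=
  ∀ f : C₀(X, ℂ), ∃ F : Op ν, IsMul ν f F ∧ (F * T).IsCpt ∧ (T * F).IsCpt

/-- `T` has finite propagation with respect to the distance `d`: there is `R` such that
`φ T ψ = 0` for all `φ, ψ ∈ C₀(X)` whose supports are at distance `> R`. -/
def HasFinProp (d : X → X → ℝ) (ν : Measure X) (T : Op ν) : Prop :=
  ∃ R : ℝ, ∀ φ ψ : C₀(X, ℂ), (∀ x ∈ tsupport φ, ∀ y ∈ tsupport ψ, R < d x y) →
    ∃ F₁ F₂ : Op ν, IsMul ν φ F₁ ∧ IsMul ν ψ F₂ ∧ F₁ * T * F₂ = 0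

/-- The locally compact operators of finite propagation. -/
def roeSet (d : X → X → ℝ) (ν : Measure X) : Set (Op ν) := {T | IsLocCpt ν T ∧ HasFinProp d ν T}

end Roe

/-! ### The hypotheses of the question -/

section Final

variable {M : Type*} [MetricSpace M] [MeasurableSpace M]

/-- The measure `m ⊗ Lebesgue` on the cone. -/
noncomputable def coneMeasure (m : Measure M) : Measure (Cone M) :=
  m.prod ((volume : Measure ℝ).comap (Subtype.val : Set.Ici (1 : ℝ) → ℝ))

variable {G : Type*} [Group G] [MulAction G M]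

/-- The locally compact operators of finite propagation of the warped cone. -/
def warpedRoeSet (ρ : Cone M → Cone M → ℝ) (S : Set G) (m : Measure M) :
    Set (Op (coneMeasure m)) :=
  roeSet (warpMetric ρ S) (coneMeasure m)

/-- The Roe algebra of the warped cone: the C*-algebra generated by `warpedRoeSet ρ S m`. -/
def WarpedRoe (ρ : Cone M → Cone M → ℝ) (S : Set G) (m : Measure M) : Type _ :=
  genAlg (warpedRoeSet ρ S m)

noncomputable instance (ρ : Cone M → Cone M → ℝ) (S : Set G) (m : Measure M) :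
    NonUnitalCStarAlgebra (WarpedRoe ρ S m) :=
  instGenAlg (warpedRoeSet ρ S m)

/-- The Roe algebra is the closure of `warpedRoeSet ρ S m`. -/
def RoeIsClosure (ρ : Cone M → Cone M → ℝ) (S : Set G) (m : Measure M) : Prop :=
  (genAlg (warpedRoeSet ρ S m) : Set (Op (coneMeasure m))) = closure (warpedRoeSet ρ S m)

/-- The hypotheses of the question: `S` is a finite symmetric generating set of `G`, acting on
the compact metric space `M` ergodically by bi-Lipschitz homeomorphisms preserving the upper uniform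
Borel probability measure `m`, with a spectral gap. -/
structure GapAction (G : Type*) [Group G] (S : Finset G) (M : Type*) [MetricSpace M]
    [CompactSpace M] [MeasurableSpace M] [BorelSpace M] [MulAction G M] (m : Measure M) :
    Prop where
  prob : m Set.univ = 1
  symm : ∀ s ∈ S, s⁻¹ ∈ S
  gen : Subgroup.closure (S : Set G) = ⊤
  upper : Filter.Tendsto (fun R : ℝ => ⨆ x : M, m (Metric.ball x R)) (𝓝[>] 0) (𝓝 0)
  lip : ∀ g : G, ∃ K : NNReal, LipschitzWith K (fun x : M => g • x)
  inv : ∀ g : G, MeasurePreserving (fun x : M => g • x) m m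
  erg : ∀ A : Set M, MeasurableSet A → (∀ g : G, (fun x : M => g • x) ⁻¹' A = A) →
    m A = 0 ∨ m A = 1
  gap : ∃ κ : ℝ, 0 < κ ∧ ∀ f : M → ℂ, MemLp f 2 m → ∫ x, f x ∂m = 0 →
    ∃ s ∈ S, ENNReal.ofReal κ * eLpNorm f 2 m ≤ eLpNorm (fun x => f (s⁻¹ • x) - f x) 2 m

/-- Every homomorphism from an abelian group to `B` is surjective. -/
def AllSurj (B : Type) [AddCommGroup B] : Prop :=
  ∀ (D : Type) (_ : AddCommGroup D) (μ : D →+ B), Function.Surjective μ

end Final

end Pool.Agent.Helper84.WC
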