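import Pool.Agent.Helper84.WC.RoeIff
import Pool.Agent.Helper11.WC.VanishIsom
import Pool.Agent.Helper68.WC.Swindle
import Pool.Agent.Helper68.WC.Cover
import Pool.Agent.Helper68.WC.RoeClosure
import Pool.Agent.Helper64.WC.Cells
import Pool.Agent.Helper92.WC.Swindle
import Pool.Agent.Helper71.WC.Example

/-!
# Vanishing of the K-theory of the Roe algebra of a radially contractible warped cone
-/

open MeasureTheory Topology
open scoped ENNReal ZeroAtInfty InnerProductSpace

namespace Pool.Agent.Helper84.WC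

variable {M : Type*} [MetricSpace M] [CompactSpace M] [MeasurableSpace M] [BorelSpace M]
variable {G : Type*} [Group G] [MulAction G M]

omit [MetricSpace M] [CompactSpace M] [MeasurableSpace M] [BorelSpace M] in
lemma stripe_disjoint {i j : ℕ} (hij : i < j) : stripe M i ∩ stripe M j = ∅ := by
  ext z
  simp only [Set.mem_inter_iff, Set.mem_empty_iff_false, iff_false, not_and]
  rintro ⟨-, h1⟩ ⟨h2, -⟩
  have h3 : (1 / 2 : ℝ) ^ j ≤ (1 / 2 : ℝ) ^ (i + 1) :=
    pow_le_pow_of_le_one (by norm_num) (by norm_num) hij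
  linarith

omit [MetricSpace M] [CompactSpace M] [BorelSpace M] in
lemma measurableSet_stripe (n : ℕ) : MeasurableSet (stripe M n) := by
  have h : Measurable (fun z : Cone M => Int.fract (z.2 : ℝ)) :=
    measurable_fract.comp (measurable_subtype_coe.comp measurable_snd)
  exact (measurableSet_le measurable_const h).inter (measurableSet_lt h measurable_const)

theorem coe_roe (S : Set G) (m : Measure M) [IsProbabilityMeasure m] :
    (warpedRoe S m : Set (Lp ℂ 2 (coneMeasure m) →L[ℂ] Lp ℂ 2 (coneMeasure m))) =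
      closure {T | LocCpt (coneMeasure m) T ∧ FinProp (warpDist S) (coneMeasure m) T} :=
  coe_roe_of S m (isRoe_iff S m)

theorem mem_roe_of_map (S : Set G) (m : Measure M) [IsProbabilityMeasure m]
    (L : (Lp ℂ 2 (coneMeasure m) →L[ℂ] Lp ℂ 2 (coneMeasure m)) →
      (Lp ℂ 2 (coneMeasure m) →L[ℂ] Lp ℂ 2 (coneMeasure m))) (hL : Continuous L)
    (h : ∀ R T, IsRoe S m R T → ∃ R', IsRoe S m R' (L T)) :
    ∀ T ∈ warpedRoe S m, L T ∈ warpedRoe S m := by
  intro T hT
  have h1 := coe_roe S m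
  have h2 : T ∈ closure {T | LocCpt (coneMeasure m) T ∧
      FinProp (warpDist S) (coneMeasure m) T} := by
    rw [← h1]; exact hT
  have h3 : L T ∈ closure {T | LocCpt (coneMeasure m) T ∧
      FinProp (warpDist S) (coneMeasure m) T} := by
    refine map_mem_closure hL h2 (fun T' hT' => ?_)
    obtain ⟨R, hR⟩ := (isRoe_iff S m T').1 hT'
    exact (isRoe_iff S m (L T')).2 (h R T' hR)
  rw [← h1] at h3
  exact h3

lemma isometry_star_mul {H : Type*} [NormedAddCommGroup H] [InnerProductSpace ℂ H]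
    [CompleteSpace H] (V : H →ₗᵢ[ℂ] H) :
    star V.toContinuousLinearMap * V.toContinuousLinearMap = 1 := by
  ext1 x
  rw [ContinuousLinearMap.star_eq_adjoint]
  apply ext_inner_left ℂ
  intro y
  change ⟪y, (ContinuousLinearMap.adjoint V.toContinuousLinearMap) (V x)⟫_ℂ = ⟪y, x⟫_ℂ
  rw [ContinuousLinearMap.adjoint_inner_right]
  exact V.inner_map_map y x

omit [MetricSpace M] [CompactSpace M] [BorelSpace M] in
lemma orth_of_stripe (m : Measure M) [IsProbabilityMeasure m]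
    (V : ℕ → Lp ℂ 2 (coneMeasure m) →ₗᵢ[ℂ] Lp ℂ 2 (coneMeasure m))
    (hV1 : ∀ n g, ind (coneMeasure m) (stripe M n) (V n g) = V n g) :
    ∀ i j, i ≠ j → ∀ x y, ⟪V i x, V j y⟫_ℂ = 0 := by
  intro i j hij x y
  rw [← hV1 i x, ← hV1 j y]
  rw [← ContinuousLinearMap.adjoint_inner_right, ← ContinuousLinearMap.star_eq_adjoint,
    ind_star (measurableSet_stripe i)]
  have h0 : stripe M i ∩ stripe M j = ∅ := by
    rcases lt_or_gt_of_ne hij with h | h
    · exact stripe_disjoint h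
    · rw [Set.inter_comm]; exact stripe_disjoint h
  have h1 : (ind (coneMeasure m) (stripe M i)) ((ind (coneMeasure m) (stripe M j)) (V j y)) =
      (ind (coneMeasure m) (stripe M i) * ind (coneMeasure m) (stripe M j)) (V j y) := rfl
  rw [h1, ind_mul (measurableSet_stripe i) (measurableSet_stripe j), h0, ind_empty]
  simp

lemma continuous_starHom {B : Type*} [NonUnitalCStarAlgebra B] (Φ : B →⋆ₙₐ[ℂ] B) :
    Continuous Φ :=
  continuous_of_linear_of_bound (𝕜 := ℂ) (f := Φ) (map_add Φ) (fun c x => map_smul Φ c x)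
      (C := 1) (fun T => by rw [one_mul]; exact NonUnitalStarAlgHom.norm_apply_le Φ T)

lemma sub_bot {Γ : Type*} [AddGroup Γ] {H : AddSubgroup Γ} (h : H = ⊥) : Subsingleton H := by
  subst h; infer_instance

theorem K_vanish_L2 {X : Type*} [MeasurableSpace X] (ν : Measure X)
    (A : NonUnitalStarSubalgebra ℂ (Lp ℂ 2 ν →L[ℂ] Lp ℂ 2 ν))
    [IsClosed (A : Set (Lp ℂ 2 ν →L[ℂ] Lp ℂ 2 ν))]
    (Φ : (Lp ℂ 2 ν →L[ℂ] Lp ℂ 2 ν) →⋆ₙₐ[ℂ] (Lp ℂ 2 ν →L[ℂ] Lp ℂ 2 ν))
    (v w : Lp ℂ 2 ν →L[ℂ] Lp ℂ 2 ν)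
    (hv : star v * v = 1) (hw : star w * w = 1) (hvw : star v * w = 0)
    (hΦ : ∀ T, Φ T = v * T * star v + w * Φ T * star w)
    (hΦA : ∀ T ∈ A, Φ T ∈ A) (hvA : ∀ T ∈ A, v * T ∈ A) (hwA : ∀ T ∈ A, w * T ∈ A) :
    KZero A = ⊥ ∧ KOne A = ⊥ :=
  K_vanish_isom A Φ v w hv hw hvw hΦ hΦA hvA hwA

/-- The general vanishing theorem. -/
theorem K_warped_eq_bot (S : Set G) (m : Measure M) [IsProbabilityMeasure m]
    [m.IsOpenPosMeasure] {σ : ℝ → M → M} (hσ : Radial G M σ) :
    KZero (warpedRoe S m) = ⊥ ∧ KOne (warpedRoe S m) = ⊥ := by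
  have hcell0 := exists_cells m
  obtain ⟨c, hc, hdiam, hcells⟩ := hcell0
  have hV0 : ∀ n : ℕ, ∃ V : Lp ℂ 2 (coneMeasure m) →ₗᵢ[ℂ] Lp ℂ 2 (coneMeasure m),
      (∀ g, ind (coneMeasure m) (stripe M n) (V g) = V g) ∧
      (∀ (D : Set ℕ) (g), ind (coneMeasure m) (c ⁻¹' D) (V g) =
        V (ind (coneMeasure m) ((c ∘ push σ n) ⁻¹' D) g)) := fun n =>
    exists_cover_isometry (coneMeasure m) c hc (push σ n) (push_continuous hσ n).measurable
      (stripe M n) (measurableSet_stripe n) (hcells n)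
  choose V hV1 hV2 using hV0
  have hsw0 := exists_swindle V (orth_of_stripe m V hV1)
  obtain ⟨Φ, w, hw1, hvw, hΦ1, hΦ2, hw2⟩ := hsw0
  have key := fun R T (hT : IsRoe S m R T) =>
    swindle_mem S m hσ c hc hdiam V hV2 Φ w hΦ2 hw2 R T hT
  exact K_vanish_L2 (coneMeasure m) (warpedRoe S m) Φ (V 0).toContinuousLinearMap w
    (isometry_star_mul (V 0)) hw1 hvw hΦ1
    (mem_roe_of_map S m Φ (continuous_starHom Φ) (fun R T hT => (key R T hT).1))
    (mem_roe_of_map S m (fun T => (V 0).toContinuousLinearMap * T)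
      (continuous_const.mul continuous_id) (fun R T hT => (key R T hT).2.1))
    (mem_roe_of_map S m (fun T => w * T)
      (continuous_const.mul continuous_id) (fun R T hT => (key R T hT).2.2))

end Pool.Agent.Helper84.WC
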