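import Pool.Agent.Helper84.WC.Basic

/-!
# Basic facts on multiplication operators
-/

open MeasureTheory Topology
open scoped ENNReal ZeroAtInfty InnerProductSpace

namespace Pool.Agent.Helper84.WC

variable {X : Type*} [MeasurableSpace X] {ν : Measure X}

lemma bddMeas_ind {A : Set X} (hA : MeasurableSet A) : BddMeas (A.indicator (1 : X → ℂ)) := by
  refine ⟨measurable_one.indicator hA, 1, fun x => ?_⟩
  by_cases h : x ∈ A <;> simp [h]

lemma mulOp_coe {f : X → ℂ} (hf : BddMeas f) (g : Lp ℂ 2 ν) :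
    (mulOp ν f g : X → ℂ) =ᵐ[ν] fun x => f x * g x := by
  have h : mulOp ν f g = (hf.memLp g).toLp _ := by
    simp only [mulOp, dif_pos hf]
    rfl
  rw [h]
  exact (hf.memLp g).coeFn_toLp

lemma BddMeas.mul {f g : X → ℂ} (hf : BddMeas f) (hg : BddMeas g) :
    BddMeas (fun x => f x * g x) := by
  obtain ⟨hf1, C, hC⟩ := hf
  obtain ⟨hg1, D, hD⟩ := hg
  refine ⟨hf1.mul hg1, |C| * |D|, fun x => ?_⟩
  rw [norm_mul]
  exact mul_le_mul ((hC x).trans (le_abs_self _)) ((hD x).trans (le_abs_self _)) (norm_nonneg _)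
    (abs_nonneg _)

lemma BddMeas.sub {f g : X → ℂ} (hf : BddMeas f) (hg : BddMeas g) :
    BddMeas (fun x => f x - g x) := by
  obtain ⟨hf1, C, hC⟩ := hf
  obtain ⟨hg1, D, hD⟩ := hg
  exact ⟨hf1.sub hg1, C + D, fun x => (norm_sub_le _ _).trans (add_le_add (hC x) (hD x))⟩

lemma BddMeas.add {f g : X → ℂ} (hf : BddMeas f) (hg : BddMeas g) :
    BddMeas (fun x => f x + g x) := by
  obtain ⟨hf1, C, hC⟩ := hf
  obtain ⟨hg1, D, hD⟩ := hg
  exact ⟨hf1.add hg1, C + D, fun x => (norm_add_le _ _).trans (add_le_add (hC x) (hD x))⟩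

lemma BddMeas.star {f : X → ℂ} (hf : BddMeas f) : BddMeas (fun x => star (f x)) := by
  obtain ⟨hf1, C, hC⟩ := hf
  refine ⟨?_, C, fun x => by rw [norm_star]; exact hC x⟩
  exact (Complex.continuous_conj.measurable).comp hf1

lemma mulOp_mul {f g : X → ℂ} (hf : BddMeas f) (hg : BddMeas g) :
    mulOp ν f * mulOp ν g = mulOp ν (fun x => f x * g x) := by
  ext1 u
  apply Lp.ext
  filter_upwards [mulOp_coe hf (mulOp ν g u), mulOp_coe hg u, mulOp_coe (hf.mul hg) u]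
    with x h1 h2 h3
  change (mulOp ν f (mulOp ν g u) : X → ℂ) x = _
  rw [h1, h2, h3, mul_assoc]

lemma mulOp_sub {f g : X → ℂ} (hf : BddMeas f) (hg : BddMeas g) :
    mulOp ν f - mulOp ν g = mulOp ν (fun x => f x - g x) := by
  ext1 u
  apply Lp.ext
  filter_upwards [mulOp_coe hf u, mulOp_coe hg u, mulOp_coe (hf.sub hg) u,
    Lp.coeFn_sub (mulOp ν f u) (mulOp ν g u)] with x h1 h2 h3 h4
  change (mulOp ν f u - mulOp ν g u : Lp ℂ 2 ν) x = _
  rw [h4, Pi.sub_apply, h1, h2, h3, sub_mul]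

lemma mulOp_add {f g : X → ℂ} (hf : BddMeas f) (hg : BddMeas g) :
    mulOp ν f + mulOp ν g = mulOp ν (fun x => f x + g x) := by
  ext1 u
  apply Lp.ext
  filter_upwards [mulOp_coe hf u, mulOp_coe hg u, mulOp_coe (hf.add hg) u,
    Lp.coeFn_add (mulOp ν f u) (mulOp ν g u)] with x h1 h2 h3 h4
  change (mulOp ν f u + mulOp ν g u : Lp ℂ 2 ν) x = _
  rw [h4, Pi.add_apply, h1, h2, h3, add_mul]

lemma mulOp_star {f : X → ℂ} (hf : BddMeas f) :
    star (mulOp ν f) = mulOp ν (fun x => star (f x)) := by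
  rw [ContinuousLinearMap.star_eq_adjoint]
  symm
  rw [ContinuousLinearMap.eq_adjoint_iff]
  intro u w
  rw [L2.inner_def, L2.inner_def]
  apply integral_congr_ae
  filter_upwards [mulOp_coe hf.star u, mulOp_coe hf w] with x h1 h2
  simp only [h1, h2, RCLike.inner_apply]
  simp only [map_mul, RCLike.star_def, Complex.conj_conj]
  ring

lemma norm_mulOp_le {f : X → ℂ} (hf : BddMeas f) {C : ℝ} (hC : ∀ x, ‖f x‖ ≤ C) :
    0 ≤ C → ‖mulOp ν f‖ ≤ C := by
  intro h0
  refine ContinuousLinearMap.opNorm_le_bound _ h0 (fun g => ?_)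
  apply Lp.norm_le_mul_norm_of_ae_le_mul
  filter_upwards [mulOp_coe hf g] with x hx
  rw [hx, norm_mul]
  exact mul_le_mul_of_nonneg_right (hC x) (norm_nonneg _)

lemma ind_mul {A B : Set X} (hA : MeasurableSet A) (hB : MeasurableSet B) :
    ind ν A * ind ν B = ind ν (A ∩ B) := by
  rw [mulOp_mul (bddMeas_ind hA) (bddMeas_ind hB)]
  congr 1
  ext x
  by_cases h1 : x ∈ A <;> by_cases h2 : x ∈ B <;> simp [h1, h2]

lemma ind_star {A : Set X} (hA : MeasurableSet A) : star (ind ν A) = ind ν A := by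
  rw [mulOp_star (bddMeas_ind hA)]
  congr 1
  ext x
  by_cases h1 : x ∈ A <;> simp [h1]

lemma ind_univ : ind ν (Set.univ : Set X) = 1 := by
  ext1 u
  apply Lp.ext
  filter_upwards [mulOp_coe (ν := ν) (bddMeas_ind (X := X) MeasurableSet.univ) u] with x hx
  rw [hx]
  simp

lemma ind_empty : ind ν (∅ : Set X) = 0 := by
  ext1 u
  apply Lp.ext
  filter_upwards [mulOp_coe (ν := ν) (bddMeas_ind (X := X) MeasurableSet.empty) u,
    Lp.coeFn_zero ℂ 2 ν] with x hx h0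
  change _ = ((0 : Lp ℂ 2 ν) : X → ℂ) x
  rw [hx, h0]
  simp

lemma ind_add_compl {A : Set X} (hA : MeasurableSet A) : ind ν A + ind ν Aᶜ = 1 := by
  rw [mulOp_add (bddMeas_ind hA) (bddMeas_ind hA.compl), ← ind_univ]
  congr 1
  ext x
  by_cases h1 : x ∈ A <;> simp [h1]

/-- additivity on disjoint sets -/
lemma ind_union {A B : Set X} (hA : MeasurableSet A) (hB : MeasurableSet B)
    (h : Disjoint A B) : ind ν (A ∪ B) = ind ν A + ind ν B := by
  rw [mulOp_add (bddMeas_ind hA) (bddMeas_ind hB)]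
  apply congrArg (mulOp ν)
  funext x
  by_cases h1 : x ∈ A
  · have h2 : x ∉ B := fun h2 => (Set.disjoint_left.1 h) h1 h2
    simp [h1, h2]
  · by_cases h2 : x ∈ B <;> simp [h1, h2]

lemma ind_eq_zero {A : Set X} (hA : MeasurableSet A) (h0 : ν A = 0) : ind ν A = 0 := by
  ext1 u
  apply Lp.ext
  have h1 : ∀ᵐ x ∂ν, x ∉ A := measure_eq_zero_iff_ae_notMem.1 h0
  filter_upwards [mulOp_coe (ν := ν) (bddMeas_ind hA) u, Lp.coeFn_zero ℂ 2 ν, h1] with x hx h0 h1
  change _ = ((0 : Lp ℂ 2 ν) : X → ℂ) x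
  rw [hx, h0]
  simp [h1]

lemma norm_ind_le {A : Set X} (hA : MeasurableSet A) : ‖ind ν A‖ ≤ 1 := by
  refine norm_mulOp_le (bddMeas_ind hA) (fun x => ?_) zero_le_one
  by_cases h : x ∈ A <;> simp [h]

/-- `1_{A_n} → 1_A` strongly for increasing `A_n` -/
lemma ind_tendsto {A : ℕ → Set X} (hA : ∀ n, MeasurableSet (A n)) (hmono : Monotone A)
    (g : Lp ℂ 2 ν) :
    Filter.Tendsto (fun n => ind ν (A n) g) Filter.atTop (𝓝 (ind ν (⋃ n, A n) g)) := by
  have hU : MeasurableSet (⋃ n, A n) := MeasurableSet.iUnion hA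
  rw [Lp.tendsto_Lp_iff_tendsto_eLpNorm']
  have key : ∀ n, eLpNorm (⇑(ind ν (A n) g) - ⇑(ind ν (⋃ n, A n) g)) 2 ν =
      eLpNorm (((⋃ n, A n) \ A n).indicator g) 2 ν := by
    intro n
    apply eLpNorm_congr_norm_ae
    filter_upwards [mulOp_coe (ν := ν) (bddMeas_ind (hA n)) g,
      mulOp_coe (ν := ν) (bddMeas_ind hU) g] with x h1 h2
    rw [Pi.sub_apply, h1, h2]
    by_cases h3 : x ∈ A n
    · have h4 : x ∈ ⋃ n, A n := Set.mem_iUnion.2 ⟨n, h3⟩
      simp only [Set.indicator_of_mem h3, Set.indicator_of_mem h4, sub_self, norm_zero]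
      rw [Set.indicator_of_notMem (fun h5 => h5.2 h3)]
      simp
    · by_cases h4 : x ∈ ⋃ n, A n
      · rw [Set.indicator_of_notMem h3, Set.indicator_of_mem h4,
          Set.indicator_of_mem (show x ∈ (⋃ n, A n) \ A n from ⟨h4, h3⟩)]
        simp
      · rw [Set.indicator_of_notMem h3, Set.indicator_of_notMem h4,
          Set.indicator_of_notMem (fun h5 => h4 h5.1)]
        simp
  simp_rw [key]
  have h2 : (2 : ℝ≥0∞) ≠ 0 := by norm_num
  have h2' : (2 : ℝ≥0∞) ≠ ∞ := ENNReal.ofNat_ne_top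
  simp_rw [eLpNorm_eq_lintegral_rpow_enorm_toReal h2 h2']
  have hfin : ∫⁻ x, ‖g x‖ₑ ^ (2 : ℝ≥0∞).toReal ∂ν ≠ ∞ :=
    (lintegral_rpow_enorm_lt_top_of_eLpNorm_lt_top h2 h2' (Lp.memLp g).2).ne
  have hlim : Filter.Tendsto (fun n => ∫⁻ x, ‖((⋃ n, A n) \ A n).indicator g x‖ₑ ^
      (2 : ℝ≥0∞).toReal ∂ν) Filter.atTop (𝓝 (∫⁻ _, 0 ∂ν)) := by
    refine tendsto_lintegral_of_dominated_convergence' (fun x => ‖g x‖ₑ ^ (2 : ℝ≥0∞).toReal)
      (fun n => ?_) (fun n => ?_) hfin ?_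
    · exact (((Lp.aestronglyMeasurable g).indicator (hU.diff (hA n))).enorm).pow_const _
    · refine Filter.Eventually.of_forall (fun x => ?_)
      refine ENNReal.rpow_le_rpow ?_ ENNReal.toReal_nonneg
      by_cases h3 : x ∈ (⋃ n, A n) \ A n
      · rw [Set.indicator_of_mem h3]
      · rw [Set.indicator_of_notMem h3]; simp
    · refine Filter.Eventually.of_forall (fun x => ?_)
      refine tendsto_const_nhds.congr' ?_
      by_cases h4 : x ∈ ⋃ n, A n
      · obtain ⟨N, hN⟩ := Set.mem_iUnion.1 h4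
        filter_upwards [Filter.eventually_ge_atTop N] with n hn
        rw [Set.indicator_of_notMem (fun h5 => h5.2 (hmono hn hN))]
        simp
      · refine Filter.Eventually.of_forall (fun n => ?_)
        have h6 : x ∉ (⋃ n, A n) \ A n := fun h5 => h4 h5.1
        simp only [Set.indicator_of_notMem h6]
        simp
  have h3 := hlim.ennrpow_const (1 / (2 : ℝ≥0∞).toReal)
  simpa using h3

end Pool.Agent.Helper84.WC
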