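import Pool.Agent.Helper84.WC.Mul
import Pool.Agent.Helper47.WC.Geometry

/-!
# The Borel description of the generators of the Roe algebra
-/

open MeasureTheory Topology
open scoped ENNReal ZeroAtInfty InnerProductSpace

namespace Pool.Agent.Helper84.WC

variable {M : Type*} [MetricSpace M] [CompactSpace M] [MeasurableSpace M] [BorelSpace M]
variable {G : Type*} [Group G] [MulAction G M]

omit [MetricSpace M] [CompactSpace M] [BorelSpace M] in
lemma measurableSet_slab (b : ℝ) : MeasurableSet (slab M b) :=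
  (measurable_subtype_coe.comp measurable_snd) measurableSet_Iic

omit [CompactSpace M] [MeasurableSpace M] [BorelSpace M] in
lemma isClosed_slab (b : ℝ) : IsClosed (slab M b) :=
  isClosed_Iic.preimage (continuous_subtype_val.comp continuous_snd)

omit [MeasurableSpace M] [BorelSpace M] in
lemma isCompact_slab (b : ℝ) : IsCompact (slab M b) := by
  have h1 : IsCompact ({t : Set.Ici (1 : ℝ) | (t : ℝ) ≤ b}) := by
    rw [Subtype.isCompact_iff]
    have : (Subtype.val '' {t : Set.Ici (1 : ℝ) | (t : ℝ) ≤ b}) = Set.Icc 1 b := by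
      ext x
      constructor
      · rintro ⟨t, ht, rfl⟩
        exact ⟨t.2, ht⟩
      · rintro ⟨h1, h2⟩
        exact ⟨⟨x, h1⟩, h2, rfl⟩
    rw [this]
    exact isCompact_Icc
  have h2 : slab M b = (Set.univ : Set M) ×ˢ {t : Set.Ici (1 : ℝ) | (t : ℝ) ≤ b} := by
    ext z
    simp [slab]
  rw [h2]
  exact isCompact_univ.prod h1

omit [MetricSpace M] [CompactSpace M] [MeasurableSpace M] [BorelSpace M] in
lemma slab_mono : Monotone (fun n : ℕ => slab M (n : ℝ)) := by
  intro a b hab z hz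
  have : (a : ℝ) ≤ b := by exact_mod_cast hab
  exact le_trans (show (z.2 : ℝ) ≤ a from hz) this

omit [MetricSpace M] [CompactSpace M] [MeasurableSpace M] [BorelSpace M] in
lemma iUnion_slab : (⋃ n : ℕ, slab M (n : ℝ)) = Set.univ := by
  ext z
  simp only [Set.mem_iUnion, Set.mem_univ, iff_true]
  obtain ⟨n, hn⟩ := exists_nat_ge (z.2 : ℝ)
  exact ⟨n, hn⟩

/-- a compactly supported function of `C₀` from a continuous real function supported in a slab -/
noncomputable def mkC0 (u : Cone M → ℝ) (hu : Continuous u) (b : ℝ)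
    (hb : ∀ z, z ∉ slab M b → u z = 0) : C₀(Cone M, ℂ) where
  toFun := fun z => (u z : ℂ)
  continuous_toFun := Complex.continuous_ofReal.comp hu
  zero_at_infty' := by
    refine tendsto_const_nhds.congr' ?_
    have h : (slab M b)ᶜ ∈ Filter.cocompact (Cone M) := (isCompact_slab b).compl_mem_cocompact
    filter_upwards [h] with z hz
    simp [hb z hz]

omit [CompactSpace M] in
lemma bddMeas_c0 (f : C₀(Cone M, ℂ)) : BddMeas (f : Cone M → ℂ) := by
  refine ⟨f.continuous.measurable, ?_⟩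
  obtain ⟨C, hC⟩ := f.toBCF.isBounded_range.exists_norm_le
  exact ⟨C, fun x => hC _ ⟨x, rfl⟩⟩

/-- cutoff function: `1` on `slab b`, `0` outside `slab (b+1)` -/
noncomputable def cut (M : Type*) (b : ℝ) (z : Cone M) : ℝ := max 0 (min 1 (b + 1 - z.2))

omit [CompactSpace M] [MeasurableSpace M] [BorelSpace M] in
lemma cut_continuous (b : ℝ) : Continuous (cut M b) := by
  unfold cut
  fun_prop

omit [MetricSpace M] [CompactSpace M] [MeasurableSpace M] [BorelSpace M] in
lemma cut_one {b : ℝ} {z : Cone M} (hz : z ∈ slab M b) : cut M b z = 1 := by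
  have h : (z.2 : ℝ) ≤ b := hz
  unfold cut
  rw [min_eq_left (by linarith), max_eq_right zero_le_one]

omit [MetricSpace M] [CompactSpace M] [MeasurableSpace M] [BorelSpace M] in
lemma cut_zero {b : ℝ} {z : Cone M} (hz : z ∉ slab M (b + 1)) : cut M b z = 0 := by
  have h : b + 1 < (z.2 : ℝ) := not_le.1 hz
  unfold cut
  rw [max_eq_left]
  exact (min_le_right _ _).trans (by linarith)

/-- the cutoff as an element of `C₀` -/
noncomputable def cutC (M : Type*) [MetricSpace M] [CompactSpace M] (b : ℝ) : C₀(Cone M, ℂ) :=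
  mkC0 (cut M b) (cut_continuous b) (b + 1) (fun _ h => cut_zero h)

variable {m : Measure M}

omit [CompactSpace M] in
lemma ind_mul_eq {ν : Measure (Cone M)} {A : Set (Cone M)} (hA : MeasurableSet A)
    (f : C₀(Cone M, ℂ)) (hf : ∀ z ∈ A, f z = 1) : ind ν A * mulOp ν f = ind ν A := by
  rw [mulOp_mul (bddMeas_ind hA) (bddMeas_c0 f)]
  apply congrArg (mulOp ν)
  funext z
  by_cases hz : z ∈ A
  · simp [hz, hf z hz]
  · simp [hz]

omit [CompactSpace M] in
lemma mul_ind_eq {ν : Measure (Cone M)} {A : Set (Cone M)} (hA : MeasurableSet A)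
    (f : C₀(Cone M, ℂ)) (hf : ∀ z ∈ A, f z = 1) : mulOp ν f * ind ν A = ind ν A := by
  rw [mulOp_mul (bddMeas_c0 f) (bddMeas_ind hA)]
  apply congrArg (mulOp ν)
  funext z
  by_cases hz : z ∈ A
  · simp [hz, hf z hz]
  · simp [hz]

lemma LocCpt.cpt {ν : Measure (Cone M)} {T : Lp ℂ 2 ν →L[ℂ] Lp ℂ 2 ν} (hT : LocCpt ν T)
    (b : ℝ) : IsCompactOperator (ind ν (slab M b) * T) ∧
      IsCompactOperator (T * ind ν (slab M b)) := by
  have h1 : ∀ z ∈ slab M b, cutC M b z = 1 := by
    intro z hz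
    change ((cut M b z : ℝ) : ℂ) = 1
    rw [cut_one hz]
    simp
  constructor
  · have h : ind ν (slab M b) * T = ind ν (slab M b) * (mulOp ν (cutC M b) * T) := by
      rw [← mul_assoc, ind_mul_eq (measurableSet_slab b) _ h1]
    rw [h]
    exact (hT (cutC M b)).1.clm_comp (ind ν (slab M b))
  · have h : T * ind ν (slab M b) = (T * mulOp ν (cutC M b)) * ind ν (slab M b) := by
      rw [mul_assoc, mul_ind_eq (measurableSet_slab b) _ h1]
    rw [h]
    exact (hT (cutC M b)).2.comp_clm (ind ν (slab M b))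

omit [CompactSpace M] in
lemma c0_tendsto (ν : Measure (Cone M)) (f : C₀(Cone M, ℂ)) :
    Filter.Tendsto (fun n : ℕ => mulOp ν f * ind ν (slab M n)) Filter.atTop
      (𝓝 (mulOp ν f)) := by
  rw [tendsto_iff_norm_sub_tendsto_zero]
  rw [Metric.tendsto_atTop]
  intro ε hε
  have h1 : ∀ᶠ z in Filter.cocompact (Cone M), ‖f z‖ < ε / 2 := by
    have := f.zero_at_infty'
    have h2 := (tendsto_zero_iff_norm_tendsto_zero.1 this)
    exact h2.eventually (gt_mem_nhds (half_pos hε))
  rw [Filter.Eventually, Filter.mem_cocompact] at h1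
  obtain ⟨K, hK, hKs⟩ := h1
  obtain ⟨N, hN⟩ : ∃ N : ℕ, K ⊆ slab M N := by
    have h3 : IsCompact ((fun z : Cone M => (z.2 : ℝ)) '' K) :=
      hK.image (continuous_subtype_val.comp continuous_snd)
    obtain ⟨C, hC⟩ := h3.bddAbove
    obtain ⟨N, hN⟩ := exists_nat_ge C
    exact ⟨N, fun z hz => (hC ⟨z, hz, rfl⟩).trans hN⟩
  refine ⟨N, fun n hn => ?_⟩
  have h4 : ‖mulOp ν f * ind ν (slab M n) - mulOp ν f‖ ≤ ε / 2 := by
    rw [mulOp_mul (bddMeas_c0 f) (bddMeas_ind (measurableSet_slab _)),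
      mulOp_sub ((bddMeas_c0 f).mul (bddMeas_ind (measurableSet_slab _))) (bddMeas_c0 f)]
    refine norm_mulOp_le (((bddMeas_c0 f).mul (bddMeas_ind (measurableSet_slab _))).sub
      (bddMeas_c0 f)) (fun z => ?_) (half_pos hε).le
    by_cases hz : z ∈ slab M n
    · simp [hz, (half_pos hε).le]
    · have h5 : z ∉ K := fun h6 => hz (slab_mono hn (hN h6))
      have h6 : ‖f z‖ < ε / 2 := hKs h5
      simp [hz, h6.le]
  rw [Real.dist_0_eq_abs, abs_of_nonneg (norm_nonneg _)]
  linarith

omit [CompactSpace M] in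
lemma c0_tendsto' (ν : Measure (Cone M)) (f : C₀(Cone M, ℂ)) :
    Filter.Tendsto (fun n : ℕ => ind ν (slab M n) * mulOp ν f) Filter.atTop
      (𝓝 (mulOp ν f)) := by
  refine (c0_tendsto ν f).congr (fun n => ?_)
  rw [mulOp_mul (bddMeas_c0 f) (bddMeas_ind (measurableSet_slab _)),
    mulOp_mul (bddMeas_ind (measurableSet_slab _)) (bddMeas_c0 f)]
  apply congrArg (mulOp ν)
  funext z
  exact mul_comm _ _

omit [CompactSpace M] in
lemma locCpt_of {ν : Measure (Cone M)} {T : Lp ℂ 2 ν →L[ℂ] Lp ℂ 2 ν}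
    (h1 : ∀ b : ℝ, IsCompactOperator (ind ν (slab M b) * T))
    (h2 : ∀ b : ℝ, IsCompactOperator (T * ind ν (slab M b))) : LocCpt ν T := by
  intro f
  constructor
  · have h3 : Filter.Tendsto (fun n : ℕ => mulOp ν f * ind ν (slab M n) * T) Filter.atTop
      (𝓝 (mulOp ν f * T)) := (c0_tendsto ν f).mul_const T
    refine isCompactOperator_of_tendsto h3 (Filter.Eventually.of_forall (fun n => ?_))
    rw [mul_assoc]
    exact (h1 n).clm_comp (mulOp ν f)
  · have h3 : Filter.Tendsto (fun n : ℕ => T * (ind ν (slab M n) * mulOp ν f)) Filter.atTop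
      (𝓝 (T * mulOp ν f)) := (c0_tendsto' ν f).const_mul T
    refine isCompactOperator_of_tendsto h3 (Filter.Eventually.of_forall (fun n => ?_))
    rw [← mul_assoc]
    exact (h2 n).comp_clm (mulOp ν f)

section WInf

omit [CompactSpace M] [MeasurableSpace M] [BorelSpace M]

/-- distance to a set for the warped metric -/
noncomputable def wInf (S : Set G) (A : Set (Cone M)) (z : Cone M) : ℝ :=
  ⨅ a : A, warpDist S z a.1

lemma wInf_bdd (S : Set G) (A : Set (Cone M)) (z : Cone M) :
    BddBelow (Set.range fun a : A => warpDist S z a.1) :=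
  ⟨0, by rintro _ ⟨a, rfl⟩; exact warpDist_nonneg S _ _⟩

lemma wInf_le (S : Set G) {A : Set (Cone M)} {a : Cone M} (ha : a ∈ A) (z : Cone M) :
    wInf S A z ≤ warpDist S z a := ciInf_le (wInf_bdd S A z) ⟨a, ha⟩

lemma wInf_nonneg (S : Set G) (A : Set (Cone M)) (z : Cone M) : 0 ≤ wInf S A z :=
  Real.iInf_nonneg (fun _ => warpDist_nonneg S _ _)

lemma wInf_lip (S : Set G) {A : Set (Cone M)} (hA : A.Nonempty) (z w : Cone M) :
    wInf S A z ≤ wInf S A w + warpDist S z w := by
  have : Nonempty A := hA.to_subtype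
  have h : wInf S A z - warpDist S z w ≤ wInf S A w := by
    refine le_ciInf (fun a => ?_)
    have h1 := wInf_le S a.2 z
    have h2 := (warpDist_isAdm S).tri z w a.1
    linarith
  linarith

lemma continuous_wInf (S : Set G) {A : Set (Cone M)} (hA : A.Nonempty) :
    Continuous (wInf S A) := by
  rw [continuous_iff_continuousAt]
  intro z
  have h1 : Filter.Tendsto (fun w => warpDist S w z) (𝓝 z) (𝓝 0) := by
    have h2 : Continuous (fun w : Cone M => warpDist S w z) :=
      (continuous_warpDist S).comp (continuous_id.prodMk continuous_const)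
    have h3 := h2.tendsto z
    rwa [(warpDist_isAdm S).self z] at h3
  rw [ContinuousAt, tendsto_iff_norm_sub_tendsto_zero]
  refine squeeze_zero (fun _ => norm_nonneg _) (fun w => ?_) h1
  rw [Real.norm_eq_abs, abs_le]
  have h4 := wInf_lip S hA w z
  have h5 := wInf_lip S hA z w
  rw [(warpDist_isAdm S).symm z w] at h5
  constructor <;> linarith

lemma wInf_self (S : Set G) {A : Set (Cone M)} {a : Cone M} (ha : a ∈ A) : wInf S A a = 0 := by
  refine le_antisymm ?_ (wInf_nonneg S A a)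
  exact (wInf_le S ha a).trans ((warpDist_isAdm S).self a).le

end WInf

omit [MeasurableSpace M] [BorelSpace M] in
/-- a test function which is `1` on a bounded set and supported close to it -/
lemma exists_test (S : Set G) (A : Set (Cone M)) (b : ℝ) :
    ∃ φ : C₀(Cone M, ℂ), (∀ z ∈ A ∩ slab M b, φ z = 1) ∧
      (∀ z ∈ tsupport φ, ∃ a ∈ A, warpDist S z a < 1) := by
  by_cases hA : (A ∩ slab M b).Nonempty
  · set B := A ∩ slab M b with hB
    let u : Cone M → ℝ := fun z => cut M b z * max 0 (1 - 2 * wInf S B z)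
    have hu : Continuous u := by
      have := continuous_wInf S hA
      have := cut_continuous (M := M) b
      fun_prop
    refine ⟨mkC0 u hu (b + 1) (fun z hz => by simp [u, cut_zero hz]), ?_, ?_⟩
    · intro z hz
      change ((u z : ℝ) : ℂ) = 1
      have h1 : u z = 1 := by
        simp only [u, cut_one hz.2, wInf_self S hz]
        norm_num
      rw [h1]
      simp
    · intro z hz
      have h1 : z ∈ {z | wInf S B z ≤ 1 / 2} := by
        have hcl : IsClosed {z | wInf S B z ≤ 1 / 2} :=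
          isClosed_le (continuous_wInf S hA) continuous_const
        refine closure_minimal ?_ hcl hz
        intro y hy
        by_contra hcon
        have h2 : 1 / 2 < wInf S B y := not_le.1 hcon
        apply hy
        change ((u y : ℝ) : ℂ) = 0
        have h3 : u y = 0 := by
          simp only [u]
          rw [max_eq_left (by linarith), mul_zero]
        rw [h3]
        simp
      have h2 : wInf S B z < 1 := lt_of_le_of_lt h1 (by norm_num)
      have : Nonempty B := hA.to_subtype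
      obtain ⟨a, ha⟩ := exists_lt_of_ciInf_lt h2
      exact ⟨a.1, a.2.1, ha⟩
  · refine ⟨0, fun z hz => (hA ⟨z, hz⟩).elim, fun z hz => ?_⟩
    have : tsupport ((0 : C₀(Cone M, ℂ)) : Cone M → ℂ) = ∅ := by
      rw [ZeroAtInftyContinuousMap.coe_zero]
      simp [tsupport]
    rw [this] at hz
    exact hz.elim

lemma FinProp.borel {S : Set G} {ν : Measure (Cone M)} {T : Lp ℂ 2 ν →L[ℂ] Lp ℂ 2 ν}
    {R : ℝ} (hR : ∀ φ ψ : C₀(Cone M, ℂ), (∀ x ∈ tsupport φ, ∀ y ∈ tsupport ψ,
      R < warpDist S x y) → mulOp ν φ * T * mulOp ν ψ = 0)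
    {A B : Set (Cone M)} (hA : MeasurableSet A) (hB : MeasurableSet B)
    (hAB : ∀ x ∈ A, ∀ y ∈ B, R + 2 < warpDist S x y) : ind ν A * T * ind ν B = 0 := by
  have h1 : ∀ b : ℝ, ind ν (A ∩ slab M b) * T * ind ν (B ∩ slab M b) = 0 := by
    intro b
    obtain ⟨φ, hφ1, hφ2⟩ := exists_test S A b
    obtain ⟨ψ, hψ1, hψ2⟩ := exists_test S B b
    have h2 : mulOp ν φ * T * mulOp ν ψ = 0 := by
      apply hR
      intro x hx y hy
      obtain ⟨a, ha, hxa⟩ := hφ2 x hx
      obtain ⟨c, hc, hyc⟩ := hψ2 y hy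
      have h3 := hAB a ha c hc
      have h4 := (warpDist_isAdm S).tri a x c
      have h5 := (warpDist_isAdm S).tri x y c
      rw [(warpDist_isAdm S).symm a x] at h4
      linarith
    have e1 := ind_mul_eq (ν := ν) (hA.inter (measurableSet_slab b)) φ hφ1
    have e2 := mul_ind_eq (ν := ν) (hB.inter (measurableSet_slab b)) ψ hψ1
    calc ind ν (A ∩ slab M b) * T * ind ν (B ∩ slab M b)
        = (ind ν (A ∩ slab M b) * mulOp ν φ) * T * (mulOp ν ψ * ind ν (B ∩ slab M b)) := by
          rw [e1, e2]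
      _ = ind ν (A ∩ slab M b) * (mulOp ν φ * T * mulOp ν ψ) * ind ν (B ∩ slab M b) := by
          simp only [mul_assoc]
      _ = 0 := by rw [h2, mul_zero, zero_mul]
  have hAm : ∀ n : ℕ, MeasurableSet (A ∩ slab M n) := fun n => hA.inter (measurableSet_slab _)
  have hBm : ∀ n : ℕ, MeasurableSet (B ∩ slab M n) := fun n => hB.inter (measurableSet_slab _)
  have hmonoA : Monotone (fun n : ℕ => A ∩ slab M n) :=
    fun i j hij => Set.inter_subset_inter_right _ (slab_mono hij)
  have hmonoB : Monotone (fun n : ℕ => B ∩ slab M n) :=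
    fun i j hij => Set.inter_subset_inter_right _ (slab_mono hij)
  have hUA : (⋃ n : ℕ, A ∩ slab M n) = A := by
    rw [← Set.inter_iUnion, iUnion_slab, Set.inter_univ]
  have hUB : (⋃ n : ℕ, B ∩ slab M n) = B := by
    rw [← Set.inter_iUnion, iUnion_slab, Set.inter_univ]
  have h2 : ∀ k n : ℕ, k ≤ n → ind ν (A ∩ slab M k) * T * ind ν (B ∩ slab M n) = 0 := by
    intro k n hkn
    have h3 : ind ν (A ∩ slab M k) = ind ν (A ∩ slab M k) * ind ν (A ∩ slab M n) := by
      rw [ind_mul (hAm k) (hAm n), Set.inter_eq_left.2 (hmonoA hkn)]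
    rw [h3, mul_assoc, mul_assoc, ← mul_assoc (ind ν (A ∩ slab M n)), h1, mul_zero]
  ext1 g
  have h3 : ∀ k : ℕ, ind ν (A ∩ slab M k) (T (ind ν B g)) = 0 := by
    intro k
    have h4 := ind_tendsto hBm hmonoB g
    rw [hUB] at h4
    have h5 : Filter.Tendsto (fun n : ℕ => ind ν (A ∩ slab M k) (T (ind ν (B ∩ slab M n) g)))
        Filter.atTop (𝓝 (ind ν (A ∩ slab M k) (T (ind ν B g)))) :=
      (((ind ν (A ∩ slab M k)).comp T).continuous.tendsto _).comp h4
    have h6 : Filter.Tendsto (fun n : ℕ => ind ν (A ∩ slab M k) (T (ind ν (B ∩ slab M n) g)))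
        Filter.atTop (𝓝 0) := by
      refine tendsto_const_nhds.congr' ?_
      filter_upwards [Filter.eventually_ge_atTop k] with n hn
      have h7 := congrArg (fun L : Lp ℂ 2 ν →L[ℂ] Lp ℂ 2 ν => L g) (h2 k n hn)
      exact h7.symm
    exact tendsto_nhds_unique h5 h6
  have h4 := ind_tendsto hAm hmonoA (T (ind ν B g))
  rw [hUA] at h4
  have h5 : Filter.Tendsto (fun n : ℕ => ind ν (A ∩ slab M n) (T (ind ν B g)))
      Filter.atTop (𝓝 0) := tendsto_const_nhds.congr (fun n => (h3 n).symm)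
  exact tendsto_nhds_unique h4 h5

omit [CompactSpace M] in
lemma finProp_of {S : Set G} {ν : Measure (Cone M)} {T : Lp ℂ 2 ν →L[ℂ] Lp ℂ 2 ν} {R : ℝ}
    (h : ∀ A B : Set (Cone M), MeasurableSet A → MeasurableSet B →
      (∀ x ∈ A, ∀ y ∈ B, R < warpDist S x y) → ind ν A * T * ind ν B = 0) :
    FinProp (warpDist S) ν T := by
  refine ⟨R, fun φ ψ hφψ => ?_⟩
  have hm : ∀ φ : C₀(Cone M, ℂ), MeasurableSet (tsupport φ) :=
    fun φ => (isClosed_tsupport _).measurableSet
  have e1 : mulOp ν φ = mulOp ν φ * ind ν (tsupport φ) := by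
    rw [mulOp_mul (bddMeas_c0 φ) (bddMeas_ind (hm φ))]
    apply congrArg (mulOp ν)
    funext z
    by_cases hz : z ∈ tsupport φ
    · simp [hz]
    · simp [hz, image_eq_zero_of_notMem_tsupport hz]
  have e2 : mulOp ν ψ = ind ν (tsupport ψ) * mulOp ν ψ := by
    rw [mulOp_mul (bddMeas_ind (hm ψ)) (bddMeas_c0 ψ)]
    apply congrArg (mulOp ν)
    funext z
    by_cases hz : z ∈ tsupport ψ
    · simp [hz]
    · simp [hz, image_eq_zero_of_notMem_tsupport hz]
  have h0 := h _ _ (hm φ) (hm ψ) hφψ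
  calc mulOp ν φ * T * mulOp ν ψ
      = (mulOp ν φ * ind ν (tsupport φ)) * T * (ind ν (tsupport ψ) * mulOp ν ψ) := by
        rw [← e1, ← e2]
    _ = mulOp ν φ * (ind ν (tsupport φ) * T * ind ν (tsupport ψ)) * mulOp ν ψ := by
        simp only [mul_assoc]
    _ = 0 := by rw [h0, mul_zero, zero_mul]

theorem isRoe_iff (S : Set G) (m : Measure M) [IsProbabilityMeasure m]
    (T : Lp ℂ 2 (coneMeasure m) →L[ℂ] Lp ℂ 2 (coneMeasure m)) :
    (LocCpt (coneMeasure m) T ∧ FinProp (warpDist S) (coneMeasure m) T) ↔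
      ∃ R : ℝ, IsRoe S m R T := by
  constructor
  · rintro ⟨h1, R, hR⟩
    exact ⟨R + 2, fun b => (h1.cpt b).1, fun b => (h1.cpt b).2,
      fun A B hA hB hAB => FinProp.borel hR hA hB hAB⟩
  · rintro ⟨R, h⟩
    exact ⟨locCpt_of h.cptL h.cptR, finProp_of h.prop⟩

end Pool.Agent.Helper84.WC
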